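import Pool.Agent.V11251.DP
import Pool.Agent.V11251.RC.Build
import Pool.Agent.V11251.RC.Hyp

set_option autoImplicit false
set_option linter.unusedVariables false
set_option linter.unusedSectionVars false

open FirstOrder

namespace Pool.Agent.Results.MP_668d6d_lc.DenseDefinable

open Pool.Agent.V11251 Pool.Agent.V11251.RC

/-- Function symbols `0, 1, -, +, ·`. -/
inductive OFun : ℕ → Type
  | zero : OFun 0
  | one : OFun 0
  | neg : OFun 1
  | add : OFun 2
  | mul : OFun 2

/-- The relation symbol `<`. -/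
inductive ORel : ℕ → Type
  | lt : ORel 2

/-- The language of ordered rings. -/
def Lor : FirstOrder.Language.{0, 0} := ⟨OFun, ORel⟩

/-- An ordered field as a structure in the language of ordered rings. -/
instance orStr (K : Type) [Field K] [LinearOrder K] : Lor.Structure K where
  funMap := fun f v => match f, v with
    | OFun.zero, _ => 0
    | OFun.one, _ => 1
    | OFun.neg, v => - v 0
    | OFun.add, v => v 0 + v 1
    | OFun.mul, v => v 0 * v 1
  RelMap := fun R v => match R, v with
    | ORel.lt, v => v 0 < v 1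

/-- The ordered field `K` is dense in its real closure `R`: `R` is a real closed field, algebraic
over `K`, whose order extends the one of `K`, and every nonempty open interval of `R` contains an
element of `K`. -/
def DenseInRealClosure (K : Type) [Field K] [LinearOrder K] : Prop :=
  ∃ (R : Type) (_ : Field R) (_ : LinearOrder R) (_ : IsStrictOrderedRing R) (_ : Algebra K R),
    IsRealClosed R ∧ Algebra.IsAlgebraic K R ∧ StrictMono (algebraMap K R) ∧
      ∀ a b : R, a < b → ∃ x : K, a < algebraMap K R x ∧ algebraMap K R x < b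

section convexhull

variable {K : Type} [Field K] [LinearOrder K] [IsStrictOrderedRing K]

/-- the convex hull of a subfield -/
def hull (k : Subfield K) : ValuationSubring K where
  carrier := {x | ∃ a ∈ k, |x| < a}
  mul_mem' := by
    rintro x y ⟨a, ha, hxa⟩ ⟨b, hb, hyb⟩
    refine ⟨a * b, k.mul_mem ha hb, ?_⟩
    rw [abs_mul]
    exact mul_lt_mul'' hxa hyb (abs_nonneg _) (abs_nonneg _)
  one_mem' := ⟨1 + 1, k.add_mem k.one_mem k.one_mem, by rw [abs_one]; linarith [zero_lt_one (α := K)]⟩
  add_mem' := by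
    rintro x y ⟨a, ha, hxa⟩ ⟨b, hb, hyb⟩
    exact ⟨a + b, k.add_mem ha hb, lt_of_le_of_lt (abs_add_le _ _) (add_lt_add hxa hyb)⟩
  zero_mem' := ⟨1, k.one_mem, by rw [abs_zero]; exact zero_lt_one⟩
  neg_mem' := by
    rintro x ⟨a, ha, hxa⟩
    exact ⟨a, ha, by rwa [abs_neg]⟩
  mem_or_inv_mem' := by
    intro x
    by_cases h : ∃ a ∈ k, |x| < a
    · exact Or.inl h
    · right
      push Not at h
      refine ⟨1 + 1, k.add_mem k.one_mem k.one_mem, ?_⟩
      have h1 := h 1 k.one_mem
      rw [abs_inv]
      have h2 : |x|⁻¹ ≤ 1 := inv_le_one_of_one_le₀ h1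
      linarith [zero_lt_one (α := K)]

theorem mem_hull (k : Subfield K) (x : K) : x ∈ hull k ↔ ∃ a ∈ k, |x| < a := Iff.rfl

theorem hull_convex (k : Subfield K) : (hull k : Set K).OrdConnected := by
  refine ⟨?_⟩
  rintro x ⟨a, ha, hxa⟩ y ⟨b, hb, hyb⟩ z ⟨hz1, hz2⟩
  refine ⟨a + b, k.add_mem ha hb, ?_⟩
  rw [abs_lt] at *
  have ha0 : 0 < a := by linarith [hxa.1, hxa.2]
  have hb0 : 0 < b := by linarith [hyb.1, hyb.2]
  constructor
  · linarith [hxa.1]
  · linarith [hyb.2]

end convexhull

section definable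

variable {K : Type} [Field K] [LinearOrder K] {A : Set K} {α : Type}

theorem tf_one : TF Lor A (fun _ : α → K => (1 : K)) :=
  TF.fun₀ (L := Lor) OFun.one 1 (fun v => rfl)

theorem tf_add {g h : (α → K) → K} (hg : TF Lor A g) (hh : TF Lor A h) :
    TF Lor A (fun w => g w + h w) :=
  TF.fun₂ (L := Lor) OFun.add (fun a b => a + b) (fun v => rfl) hg hh

theorem tf_mul {g h : (α → K) → K} (hg : TF Lor A g) (hh : TF Lor A h) :
    TF Lor A (fun w => g w * h w) :=
  TF.fun₂ (L := Lor) OFun.mul (fun a b => a * b) (fun v => rfl) hg hh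

theorem tf_neg {g : (α → K) → K} (hg : TF Lor A g) : TF Lor A (fun w => - g w) :=
  TF.fun₁ (L := Lor) OFun.neg (fun a => - a) (fun v => rfl) hg

theorem dp_lt {g h : (α → K) → K} (hg : TF Lor A g) (hh : TF Lor A h) :
    DP Lor A (fun w => g w < h w) := by
  obtain ⟨s, hs⟩ := hg
  obtain ⟨t, ht⟩ := hh
  refine ⟨Language.Relations.formula₂ (L := Lor) ORel.lt s t, fun v => ?_⟩
  rw [Language.Formula.realize_rel₂, hs, ht]
  rfl

end definable

/-- There is an ordered field, dense in its real closure, with a non-trivial convex valuation ring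
that is definable (without parameters) in the language of ordered rings. -/
theorem result : ∃ (K : Type) (_ : Field K) (_ : LinearOrder K) (_ : IsStrictOrderedRing K),
    DenseInRealClosure K ∧
    ∃ O : ValuationSubring K, O ≠ ⊤ ∧ (O : Set K).OrdConnected ∧
      (∅ : Set K).Definable₁ Lor (O : Set K) := by
  obtain ⟨K₀, hkK₀, hPP₀, hdense⟩ := exists_dense kk card_RR card_kk
  obtain ⟨K, hK₀K, hmax⟩ := exists_maximal K₀ hPP₀
  have halg : Algebra.IsAlgebraic K RR := algebraic_of_maximal hmax
  have hkK : kk ≤ K := hkK₀.trans hK₀K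
  let k : Subfield K := kk.comap K.subtype
  have hk : ∀ f : K, f ∈ k ↔ ∃ g : K, g * g = 1 + f * f * (f * f) := by
    intro f
    constructor
    · intro hf
      have h1 : 1 + (f : RR) ^ 4 ∈ kk := kk.add_mem kk.one_mem (pow_mem hf 4)
      obtain ⟨g, hg, hgf⟩ := kk_sqrt _ h1 (by positivity)
      refine ⟨⟨g, hkK hg⟩, Subtype.ext ?_⟩
      show g * g = 1 + (f : RR) * f * (f * f)
      linear_combination hgf
    · rintro ⟨g, hg⟩
      have hg' : (g : RR) * g = 1 + (f : RR) * f * (f * f) := congrArg Subtype.val hg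
      exact hmax.prop.2 f f.2 g g.2 (by linear_combination hg')
  refine ⟨K, inferInstance, inferInstance, inferInstance, ?_, hull k, ?_, hull_convex k, ?_⟩
  · refine ⟨RR, inferInstance, inferInstance, inferInstance, inferInstance, isRealClosed_RR, halg,
      fun a b hab => hab, ?_⟩
    intro a b hab
    obtain ⟨x, hx, h1, h2⟩ := hdense a b hab
    exact ⟨⟨x, hK₀K hx⟩, h1, h2⟩
  · intro htop
    obtain ⟨x, hx, h1, h2⟩ := hdense _ _ (lt_add_one (((fun n : ℕ => (n : ℝ) : ℕ → ℝ)) : RR))
    have hmem : (⟨x, hK₀K hx⟩ : K) ∈ hull k := by rw [htop]; trivial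
    obtain ⟨a, ha, hxa⟩ := hmem
    have h3 : (⟨x, hK₀K hx⟩ : K) < a := lt_of_le_of_lt (le_abs_self _) hxa
    have h4 : x < (a : RR) := h3
    exact absurd (lt_trans h1 h4) (not_lt.2 (kk_bdd _ ha).le)
  · have : DP Lor (∅ : Set K) (fun v : Fin 1 → K => ∃ a : K,
        (∃ g : K, g * g = 1 + a * a * (a * a)) ∧ (-a < v 0 ∧ v 0 < a)) := by
      refine DP.ex (DP.and (DP.ex (DP.eq ?_ ?_)) (DP.and ?_ ?_))
      · exact tf_mul (TF.var none) (TF.var none)
      · exact tf_add tf_one (tf_mul (tf_mul (TF.var (some none)) (TF.var (some none)))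
          (tf_mul (TF.var (some none)) (TF.var (some none))))
      · exact dp_lt (tf_neg (TF.var none)) (TF.var (some 0))
      · exact dp_lt (TF.var (some 0)) (TF.var none)
    refine (this.congr fun v => ?_).definable
    show _ ↔ ∃ a ∈ k, |v 0| < a
    apply exists_congr
    intro a
    rw [hk a, abs_lt]

end Pool.Agent.Results.MP_668d6d_lc.DenseDefinable
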